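import Pool.Agent.Helper95.WS.St

/-!
# Project WS, module W5: the `L`-function is a polynomial
-/

set_option autoImplicit false

namespace Pool.Agent.Helper6.WS

open Polynomial Pool.Agent.Helper95.WS
open scoped Classical

noncomputable section

variable {F : Type} [Field F]

/-- the polynomial of degree less than `d` with the given coefficients -/
def pl {d : ℕ} (a : Fin d → F) : F[X] := ∑ i, C (a i) * X ^ (i : ℕ)

theorem coeff_pl {d : ℕ} (a : Fin d → F) (j : ℕ) :
    (pl a).coeff j = if h : j < d then a ⟨j, h⟩ else 0 := by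
  unfold pl
  rw [finsetSum_coeff]
  simp only [coeff_C_mul, coeff_X_pow]
  split_ifs with h
  · rw [Finset.sum_eq_single (⟨j, h⟩ : Fin d)]
    · simp
    · intro b _ hb
      rw [if_neg, mul_zero]
      intro hj
      exact hb (Fin.ext hj.symm)
    · intro hn
      exact absurd (Finset.mem_univ _) hn
  · refine Finset.sum_eq_zero fun i _ => ?_
    rw [if_neg, mul_zero]
    intro hj
    exact h (hj ▸ i.2)

theorem degree_pl {d : ℕ} (a : Fin d → F) : (pl a).degree < d := by
  rw [degree_lt_iff_coeff_zero]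
  intro j hj
  rw [coeff_pl, dif_neg (by omega)]

theorem natDegree_pl {d : ℕ} (a : Fin d → F) : (pl a).natDegree ≤ d :=
  natDegree_le_of_degree_le (degree_pl a).le

theorem pl_coeff {d : ℕ} (g : F[X]) (h : g.degree < d) : pl (fun i : Fin d => g.coeff i) = g := by
  ext j
  rw [coeff_pl]
  split_ifs with hj
  · rfl
  · rw [degree_lt_iff_coeff_zero] at h
    exact (h j (by omega)).symm

theorem pl_inj {d : ℕ} {a b : Fin d → F} (h : pl a = pl b) : a = b := by
  funext i
  have h1 := congrArg (fun g : F[X] => g.coeff i) h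
  simp only [coeff_pl] at h1
  simpa using h1

/-- `λ` in terms of the monic polynomial `f₀` -/
theorem lam_eq (ψ : MulChar F ℂ) (c : F) (hc : c ≠ 0) (f₀ : F[X]) (n : ℕ) (h : F[X])
    (hn : h.natDegree = n) :
    lam ψ (C c * f₀) h = ψ c ^ n * ψ (-1) ^ (n * f₀.natDegree) *
      ψ (resultant f₀ h f₀.natDegree n) := by
  unfold lam
  rw [natDegree_C_mul hc, hn, resultant_C_mul_right, resultant_comm, map_mul, map_mul, map_pow,
    map_pow, mul_assoc]

theorem res_deg (f₀ : F[X]) (h₀ : f₀.Monic) (g : F[X]) (n n' : ℕ) (hg : g.natDegree ≤ n)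
    (hn : n ≤ n') :
    resultant f₀ g f₀.natDegree n' = resultant f₀ g f₀.natDegree n := by
  obtain ⟨k, rfl⟩ := Nat.exists_eq_add_of_le hn
  rw [resultant_add_right_deg _ _ _ _ _ hg, h₀.coeff_natDegree, one_pow, one_mul]

variable [Fintype F]

theorem part1 (hW1 : StW1) (ψ : MulChar F ℂ) (f₀ : F[X]) (h₀ : f₀.Monic)
    (hd : 1 ≤ f₀.natDegree)
    (h4 : ∑ a : Fin f₀.natDegree → F, ψ (resultant f₀ (pl a) f₀.natDegree f₀.natDegree) = 0)
    (n : ℕ) (hn : f₀.natDegree ≤ n) :
    ∑ h ∈ Mn F n, ψ (resultant f₀ h f₀.natDegree n) = 0 := by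
  have hM := (hW1 F ψ f₀).1
  have hdeg : f₀.degree = (f₀.natDegree : WithBot ℕ) := degree_eq_natDegree h₀.ne_zero
  have hf1 : f₀ ≠ 1 := by
    rintro rfl
    simp at hd
  have key : ∑ h ∈ Mn F n, ψ (resultant f₀ h f₀.natDegree n) =
      ∑ x ∈ Mn F (n - f₀.natDegree) ×ˢ (Finset.univ : Finset (Fin f₀.natDegree → F)),
        ψ (resultant f₀ (pl x.2) f₀.natDegree f₀.natDegree) := by
    refine Finset.sum_nbij' (fun h => (h /ₘ f₀, fun i => (h %ₘ f₀).coeff i))
      (fun x => pl x.2 + f₀ * x.1) ?_ ?_ ?_ ?_ ?_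
    · intro h hh
      rw [hM] at hh
      rw [Finset.mem_product]
      refine ⟨(hM _ _).2 ⟨?_, ?_⟩, Finset.mem_univ _⟩
      · unfold Monic
        rw [leadingCoeff_divByMonic_of_monic h₀, hh.1.leadingCoeff]
        rw [hdeg, degree_eq_natDegree hh.1.ne_zero, hh.2]
        exact_mod_cast hn
      · rw [natDegree_divByMonic _ h₀, hh.2]
    · intro x hx
      rw [Finset.mem_product, hM] at hx
      have hmon : (f₀ * x.1).Monic := h₀.mul hx.1.1
      have hnat : (f₀ * x.1).natDegree = n := by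
        rw [h₀.natDegree_mul hx.1.1, hx.1.2]
        omega
      have hlt : (pl x.2).degree < (f₀ * x.1).degree := by
        rw [degree_eq_natDegree hmon.ne_zero, hnat]
        exact (degree_pl x.2).trans_le (by exact_mod_cast hn)
      rw [hM]
      refine ⟨hmon.add_of_right hlt, ?_⟩
      rw [natDegree_add_eq_right_of_degree_lt hlt, hnat]
    · intro h hh
      have hlt : (h %ₘ f₀).degree < (f₀.natDegree : WithBot ℕ) := by
        rw [← hdeg]
        exact degree_modByMonic_lt _ h₀
      show pl (fun i : Fin f₀.natDegree => (h %ₘ f₀).coeff i) + f₀ * (h /ₘ f₀) = h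
      rw [pl_coeff _ hlt]
      exact modByMonic_add_div h f₀
    · intro x _
      have hlt : (pl x.2).degree < f₀.degree := by
        rw [hdeg]
        exact degree_pl x.2
      obtain ⟨h1, h2⟩ := div_modByMonic_unique (f := pl x.2 + f₀ * x.1) x.1 (pl x.2) h₀ ⟨rfl, hlt⟩
      refine Prod.ext h1 ?_
      show (fun i : Fin f₀.natDegree => ((pl x.2 + f₀ * x.1) %ₘ f₀).coeff i) = x.2
      rw [h2]
      funext i
      rw [coeff_pl, dif_pos i.2]
    · intro h hh
      rw [hM] at hh
      have hlt : (h %ₘ f₀).degree < (f₀.natDegree : WithBot ℕ) := by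
        rw [← hdeg]
        exact degree_modByMonic_lt _ h₀
      show ψ (resultant f₀ h f₀.natDegree n) =
        ψ (resultant f₀ (pl (fun i : Fin f₀.natDegree => (h %ₘ f₀).coeff i)) f₀.natDegree
          f₀.natDegree)
      rw [pl_coeff _ hlt, ← res_deg f₀ h₀ (h %ₘ f₀) f₀.natDegree n
        (natDegree_le_of_degree_le hlt.le) hn]
      congr 1
      conv_lhs => rw [← modByMonic_add_div h f₀]
      refine resultant_add_mul_right _ _ _ _ _ ?_ le_rfl
      rw [natDegree_divByMonic _ h₀, hh.2]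
      omega
  rw [key, Finset.sum_product]
  exact Finset.sum_eq_zero fun u _ => h4

theorem part2 (hW1 : StW1) (ψ : MulChar F ℂ) (f₀ : F[X]) (h₀ : f₀.Monic)
    (hd : 1 ≤ f₀.natDegree)
    (h4 : ∑ a : Fin f₀.natDegree → F, ψ (resultant f₀ (pl a) f₀.natDegree f₀.natDegree) = 0)
    (hψ : ∀ b : F, b ≠ 0 → ψ b ^ f₀.natDegree = 1) :
    ∑ n ∈ Finset.range f₀.natDegree, ∑ h ∈ Mn F n, ψ (resultant f₀ h f₀.natDegree n) = 0 := by
  have hM := (hW1 F ψ f₀).1
  set d := f₀.natDegree with hd'
  set Φ : F[X] → ℂ := fun g => ψ (resultant f₀ g d d) with hΦ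
  have hzero : Φ (pl (0 : Fin d → F)) = 0 := by
    have h1 : pl (0 : Fin d → F) = 0 := by
      ext j
      rw [coeff_pl]
      simp
    rw [hΦ]
    simp only
    rw [h1, resultant_zero_right, zero_pow (by omega), zero_mul]
    exact MulChar.map_zero ψ
  have hunit : ∀ (b : F) (h : F[X]), b ≠ 0 → Φ (C b * h) = Φ h := by
    intro b h hb
    rw [hΦ]
    simp only
    rw [resultant_C_mul_right, map_mul, map_pow, hψ b hb, one_mul]
  have h5 : ∑ a ∈ (Finset.univ : Finset (Fin d → F)).erase 0, Φ (pl a) = 0 := by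
    have h6 := Finset.sum_erase_add (Finset.univ : Finset (Fin d → F)) (fun a => Φ (pl a))
      (Finset.mem_univ 0)
    rw [hzero, add_zero] at h6
    rw [h6]
    exact h4
  have key : ∑ a ∈ (Finset.univ : Finset (Fin d → F)).erase 0, Φ (pl a) =
      ∑ x ∈ (Finset.range d).sigma (fun n => Mn F n ×ˢ (Finset.univ : Finset F).erase 0),
        Φ x.2.1 := by
    refine Finset.sum_nbij'
      (fun a => (⟨(pl a).natDegree, (C (pl a).leadingCoeff⁻¹ * pl a, (pl a).leadingCoeff)⟩ :
        Σ _ : ℕ, F[X] × F))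
      (fun x => fun i => (C x.2.2 * x.2.1).coeff i) ?_ ?_ ?_ ?_ ?_
    · intro a ha
      have hpa : pl a ≠ 0 := by
        intro h
        apply (Finset.mem_erase.1 ha).1
        funext i
        have := congrArg (fun g : F[X] => g.coeff i) h
        simp only [coeff_pl, coeff_zero] at this
        simpa using this
      have hlc : (pl a).leadingCoeff ≠ 0 := leadingCoeff_ne_zero.2 hpa
      rw [Finset.mem_sigma]
      refine ⟨?_, ?_⟩
      · rw [Finset.mem_range]
        exact (natDegree_lt_iff_degree_lt hpa).2 (degree_pl a)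
      · rw [Finset.mem_product]
        refine ⟨(hM _ _).2 ⟨?_, ?_⟩, ?_⟩
        · unfold Monic
          rw [leadingCoeff_mul, leadingCoeff_C, inv_mul_cancel₀ hlc]
        · exact natDegree_C_mul (inv_ne_zero hlc)
        · rw [Finset.mem_erase]
          exact ⟨hlc, Finset.mem_univ _⟩
    · rintro ⟨n, h, b⟩ hx
      rw [Finset.mem_sigma, Finset.mem_product, Finset.mem_range, hM, Finset.mem_erase] at hx
      obtain ⟨hn, ⟨hmon, hnat⟩, hb, -⟩ := hx
      simp only at hn hmon hnat hb
      rw [Finset.mem_erase]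
      refine ⟨?_, Finset.mem_univ _⟩
      intro h0
      have h1 := congrFun h0 ⟨n, hn⟩
      simp only [Pi.zero_apply, coeff_C_mul] at h1
      rw [← hnat, hmon.coeff_natDegree, mul_one] at h1
      exact hb h1
    · intro a ha
      have hpa : pl a ≠ 0 := by
        intro h
        apply (Finset.mem_erase.1 ha).1
        funext i
        have := congrArg (fun g : F[X] => g.coeff i) h
        simp only [coeff_pl, coeff_zero] at this
        simpa using this
      have hlc : (pl a).leadingCoeff ≠ 0 := leadingCoeff_ne_zero.2 hpa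
      funext i
      show (C (pl a).leadingCoeff * (C (pl a).leadingCoeff⁻¹ * pl a)).coeff i = a i
      rw [← mul_assoc, ← C_mul, mul_inv_cancel₀ hlc, C_1, one_mul, coeff_pl, dif_pos i.2]
    · rintro ⟨n, h, b⟩ hx
      rw [Finset.mem_sigma, Finset.mem_product, Finset.mem_range, hM, Finset.mem_erase] at hx
      obtain ⟨hn, ⟨hmon, hnat⟩, hb, -⟩ := hx
      simp only at hn hmon hnat hb
      have hdeg : (C b * h).degree < (d : WithBot ℕ) := by
        rw [degree_C_mul hb, degree_eq_natDegree hmon.ne_zero, hnat]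
        exact_mod_cast hn
      have h1 : pl (fun i : Fin d => (C b * h).coeff i) = C b * h := pl_coeff _ hdeg
      have h2 : (C b * h).leadingCoeff = b := by
        rw [leadingCoeff_mul, leadingCoeff_C, hmon.leadingCoeff, mul_one]
      have h3 : (C b * h).natDegree = n := by rw [natDegree_C_mul hb, hnat]
      show (⟨(pl (fun i : Fin d => (C b * h).coeff i)).natDegree,
        (C (pl (fun i : Fin d => (C b * h).coeff i)).leadingCoeff⁻¹ *
          pl (fun i : Fin d => (C b * h).coeff i),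
          (pl (fun i : Fin d => (C b * h).coeff i)).leadingCoeff)⟩ : Σ _ : ℕ, F[X] × F) = ⟨n, h, b⟩
      rw [h1, h2, h3, ← mul_assoc, ← C_mul, inv_mul_cancel₀ hb, C_1, one_mul]
    · intro a ha
      have hpa : pl a ≠ 0 := by
        intro h
        apply (Finset.mem_erase.1 ha).1
        funext i
        have := congrArg (fun g : F[X] => g.coeff i) h
        simp only [coeff_pl, coeff_zero] at this
        simpa using this
      have hlc : (pl a).leadingCoeff ≠ 0 := leadingCoeff_ne_zero.2 hpa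
      exact (hunit _ _ (inv_ne_zero hlc)).symm
  rw [key, Finset.sum_sigma] at h5
  simp only [Finset.sum_product, Finset.sum_const, nsmul_eq_mul] at h5
  have hcard : ((((Finset.univ : Finset F).erase 0).card : ℕ) : ℂ) ≠ 0 := by
    rw [Nat.cast_ne_zero, Finset.card_ne_zero]
    exact ⟨1, Finset.mem_erase.2 ⟨one_ne_zero, Finset.mem_univ _⟩⟩
  simp only [← Finset.mul_sum] at h5
  rcases mul_eq_zero.1 h5 with h6 | h6
  · exact absurd h6 hcard
  rw [← h6]
  refine Finset.sum_congr rfl fun n hn => Finset.sum_congr rfl fun h hh => ?_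
  rw [hM] at hh
  rw [Finset.mem_range] at hn
  rw [hΦ]
  simp only
  rw [hd', ← res_deg f₀ h₀ h n f₀.natDegree hh.2.le (by omega)]

theorem hW5 (hW1 : StW1) (hW4 : StW4) : StW5 := by
  intro F _ _ ψ f hψ hsq hd
  have hf0 : f ≠ 0 := by
    rintro rfl
    simp at hd
  have hc : f.leadingCoeff ≠ 0 := leadingCoeff_ne_zero.2 hf0
  set c := f.leadingCoeff with hc'
  obtain ⟨f₀, hf₀⟩ : ∃ f₀ : F[X], f₀ = C c⁻¹ * f := ⟨_, rfl⟩
  have hff : f = C c * f₀ := by
    rw [hf₀, ← mul_assoc, ← C_mul, mul_inv_cancel₀ hc, C_1, one_mul]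
  have h₀ : f₀.Monic := by
    unfold Monic
    rw [hf₀, leadingCoeff_mul, leadingCoeff_C, ← hc', inv_mul_cancel₀ hc]
  have hnat : f.natDegree = f₀.natDegree := by
    rw [hff, natDegree_C_mul hc]
  have hsq₀ : Squarefree f₀ := hsq.squarefree_of_dvd ⟨C c, by rw [hff, mul_comm]⟩
  rw [hnat] at hd
  have h4 := hW4 F ψ f₀ hψ h₀ hsq₀ hd
  have hAA : ∀ n, AA ψ f n = ψ c ^ n * ψ (-1) ^ (n * f₀.natDegree) *
      ∑ h ∈ Mn F n, ψ (resultant f₀ h f₀.natDegree n) := by
    intro n
    unfold AA
    rw [Finset.mul_sum]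
    refine Finset.sum_congr rfl fun h hh => ?_
    rw [((hW1 F ψ f₀).1 n h)] at hh
    rw [hff]
    exact lam_eq ψ c hc f₀ n h hh.2
  rw [hnat]
  constructor
  · intro n hn
    rw [hAA, part1 hW1 ψ f₀ h₀ hd h4 n hn, mul_zero]
  · intro hb
    rw [← part2 hW1 ψ f₀ h₀ hd h4 hb]
    refine Finset.sum_congr rfl fun n _ => ?_
    have h1 : ψ (-1) ^ (n * f₀.natDegree) = 1 := by
      rw [mul_comm, pow_mul, hb (-1) (neg_ne_zero.2 one_ne_zero), one_pow]
    have h2 : ψ c ≠ 0 := by
      intro h
      have h3 := hb c hc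
      rw [h, zero_pow (by omega)] at h3
      exact zero_ne_one h3
    rw [hAA, h1, mul_one, ← mul_assoc, ← mul_pow, inv_mul_cancel₀ h2, one_pow, one_mul]

end

end Pool.Agent.Helper6.WS
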